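import Pool.Agent.Helper79K9.TF.Main
import Pool.Agent.Helper79K9.TF.Base
import Pool.Agent.Helper79K9.TF.BotOpen
import Pool.Agent.Helper79K9.TF.Plan
import Pool.Agent.Helper79K9.TF.Crit
import Pool.Agent.Helper79K9.TF.Cross
import Pool.Agent.Helper79K9.TF.Nott
import Pool.Agent.Helper79K9.TF.Top
import Pool.Agent.Helper79K9.TF.Left1
import Pool.Agent.Helper79K9.TF.Left2
import Pool.Agent.Helper79K9.TF.Right
import Pool.Agent.Helper79K9.TF.Lim
import Pool.Agent.Helper79K9.TF.Key1
import Pool.Agent.Helper79K9.TF.Key2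
import Pool.Agent.Helper79K9.TF.Reg

/-!
# A symmetric zero-contact-angle extinction profile exists

For the thin film equation with constant absorption `u_t = -(u u_xxx)_x - 1` there is a
self-similar symmetric solution with zero contact angle and zero flux at the interface.

Proof (two-parameter shooting from the centre). Let `g(0) = A`, `g'(0) = 0`, `g''(0) = -B`,
`g'''(0) = 0`, `n = g g'''`. `U` = parameters for which `g'` becomes positive, `V` = parameters
for which `n` becomes negative; both are open. On a rectangle `[A₁, 20] × [0, 120]`, a planar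
argument (Poincaré-Miranda) gives a point of the boundary of `U`, not in `V`, which is a limit of
points of `V` outside `U`. At a boundary point of `U` the contact angle vanishes, and if the flux
`n` had a positive limit at the interface all nearby parameters outside `U` would be outside `V`.
-/

set_option autoImplicit false

namespace Pool.Agent.Results.MP_db815f_an.ZeroAngleProfileExists

open Set Filter Topology

/-- `(ξ₀, g)` is an admissible profile: `ξ₀ > 0`, `g ∈ C⁴([0, ξ₀))`,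
1. `g > 0` and `-(g g''')' - ξ g' / 2 + g - 1 = 0` on `[0, ξ₀)`;
2. `g'(0) = g'''(0) = 0`;
3. `g → 0`, `g' → 0` and `g g''' → 0` at `ξ₀` from the left.
All derivatives are derivatives within `[0, ξ₀)` (one-sided at `0`). -/
def IsAdmissible (ξ₀ : ℝ) (g : ℝ → ℝ) : Prop :=
  0 < ξ₀ ∧ ContDiffOn ℝ 4 g (Ico 0 ξ₀) ∧
  (∀ x ∈ Ico 0 ξ₀, 0 < g x) ∧
  (∀ x ∈ Ico 0 ξ₀,
    -derivWithin (fun y => g y * iteratedDerivWithin 3 g (Ico 0 ξ₀) y) (Ico 0 ξ₀) x
      - x / 2 * derivWithin g (Ico 0 ξ₀) x + g x - 1 = 0) ∧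
  derivWithin g (Ico 0 ξ₀) 0 = 0 ∧ iteratedDerivWithin 3 g (Ico 0 ξ₀) 0 = 0 ∧
  Tendsto g (𝓝[<] ξ₀) (𝓝 0) ∧
  Tendsto (derivWithin g (Ico 0 ξ₀)) (𝓝[<] ξ₀) (𝓝 0) ∧
  Tendsto (fun x => g x * iteratedDerivWithin 3 g (Ico 0 ξ₀) x) (𝓝[<] ξ₀) (𝓝 0)

/-- There is an admissible profile. -/
theorem result : ∃ (ξ₀ : ℝ) (g : ℝ → ℝ), IsAdmissible ξ₀ g := by
  have hcross := Pool.Agent.Helper79K9.TF.cross
  have hnott := Pool.Agent.Helper79K9.TF.nott
  exact Pool.Agent.Helper79K9.TF.main Pool.Agent.Helper79K9.TF.base Pool.Agent.Helper79K9.TF.opn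
    Pool.Agent.Helper79K9.TF.bot Pool.Agent.Helper79K9.TF.top Pool.Agent.Helper79K9.TF.plan
    (Pool.Agent.Helper79K9.TF.left1 hcross) (Pool.Agent.Helper79K9.TF.left2 hnott)
    (Pool.Agent.Helper79K9.TF.right hnott hcross)
    (Pool.Agent.Helper79K9.TF.key1 (Pool.Agent.Helper79K9.TF.lim hcross))
    Pool.Agent.Helper79K9.TF.key2 Pool.Agent.Helper79K9.TF.reg

end Pool.Agent.Results.MP_db815f_an.ZeroAngleProfileExists
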